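import Pool.Agent.Lib.MP_a57f33_nt.TwoTerm
import Pool.Agent.Lib.MP_a57f33_nt.CycLie
import Pool.Agent.Lib.MP_a57f33_nt.IharaLemmas
import Pool.Agent.Lib.MP_a57f33_nt.FL.Defs

/-!
# Racinet's torsor theorem for the regularised double shuffle relations: definitions
-/

namespace Pool.Agent.MP_a57f33_nt.RT

open Pool.Agent.MP_a57f33_nt TensorProduct

section General

variable {X : Type}

/-- The algebra map `a ↦ (a, D a; 0, a)`, `D` the derivation with `D x = g x` for the letters. -/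
noncomputable def gdHom (g : X → FreeAlgebra ℚ X) :
    FreeAlgebra ℚ X →ₐ[ℚ] Matrix (Fin 2) (Fin 2) (FreeAlgebra ℚ X) :=
  FreeAlgebra.lift ℚ fun x : X => !![FreeAlgebra.ι ℚ x, g x; 0, FreeAlgebra.ι ℚ x]

lemma gdHom_entries (g : X → FreeAlgebra ℚ X) (a : FreeAlgebra ℚ X) :
    gdHom g a 0 0 = a ∧ gdHom g a 1 1 = a ∧ gdHom g a 1 0 = 0 := by
  induction a using FreeAlgebra.induction with
  | grade0 r => simp [Algebra.algebraMap_eq_smul_one]
  | grade1 b => simp [gdHom]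
  | mul a b ha hb =>
    simp only [map_mul, Matrix.mul_apply, Fin.sum_univ_two, ha.1, ha.2.1, ha.2.2, hb.1, hb.2.1,
      hb.2.2]
    simp
  | add a b ha hb =>
    simp only [map_add, Matrix.add_apply, ha.1, ha.2.1, ha.2.2, hb.1, hb.2.1, hb.2.2]
    simp

/-- The derivation of the free algebra with the values `g x` at the letters `x`. -/
noncomputable def gd (g : X → FreeAlgebra ℚ X) : FreeAlgebra ℚ X →ₗ[ℚ] FreeAlgebra ℚ X where
  toFun a := gdHom g a 0 1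
  map_add' a b := by simp
  map_smul' r a := by simp

lemma gd_mul (g : X → FreeAlgebra ℚ X) (a b : FreeAlgebra ℚ X) :
    gd g (a * b) = gd g a * b + a * gd g b := by
  change gdHom g (a * b) 0 1 = gdHom g a 0 1 * b + a * gdHom g b 0 1
  simp only [map_mul, Matrix.mul_apply, Fin.sum_univ_two, (gdHom_entries g a).1,
    (gdHom_entries g b).2.1]
  rw [add_comm]

lemma gd_one (g : X → FreeAlgebra ℚ X) : gd g 1 = 0 := by
  change gdHom g 1 0 1 = 0
  simp

lemma gd_iota (g : X → FreeAlgebra ℚ X) (x : X) : gd g (FreeAlgebra.ι ℚ x) = g x := by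
  change gdHom g (FreeAlgebra.ι ℚ x) 0 1 = g x
  simp [gdHom]

/-- `S ⊗ 1 + 1 ⊗ S`. -/
noncomputable def cod (S : FreeAlgebra ℚ X →ₗ[ℚ] FreeAlgebra ℚ X) :
    FreeAlgebra ℚ X ⊗[ℚ] FreeAlgebra ℚ X →ₗ[ℚ] FreeAlgebra ℚ X ⊗[ℚ] FreeAlgebra ℚ X :=
  TensorProduct.map S LinearMap.id + TensorProduct.map LinearMap.id S

lemma cod_tmul (S : FreeAlgebra ℚ X →ₗ[ℚ] FreeAlgebra ℚ X) (a b : FreeAlgebra ℚ X) :
    cod S (a ⊗ₜ[ℚ] b) = S a ⊗ₜ[ℚ] b + a ⊗ₜ[ℚ] S b := by
  simp [cod]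

/-- The coefficient of `u ⊗ v`. -/
noncomputable def ccx (u v : List X) : FreeAlgebra ℚ X ⊗[ℚ] FreeAlgebra ℚ X →ₗ[ℚ] ℚ :=
  (LinearMap.mul' ℚ ℚ).comp (TensorProduct.map (coeffL u) (coeffL v))

lemma ccx_tmul (u v : List X) (a b : FreeAlgebra ℚ X) :
    ccx u v (a ⊗ₜ[ℚ] b) = coeff a u * coeff b v := by
  simp [ccx, coeffL_apply]

/-- `S` and `T` are adjoint for the pairing in which the words are orthonormal. -/
def IsAdj (S T : FreeAlgebra ℚ X →ₗ[ℚ] FreeAlgebra ℚ X) : Prop :=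
  ∀ a w : List X, coeff (S (word a)) w = coeff (T (word w)) a

/-- `T` lowers the weight `wt` by `n`. -/
def Lowers (wt : List X → ℕ) (n : ℕ) (T : FreeAlgebra ℚ X →ₗ[ℚ] FreeAlgebra ℚ X) : Prop :=
  ∀ w a : List X, coeff (T (word w)) a ≠ 0 → wt w = wt a + n

/-- The linear extension of a function on words. -/
noncomputable def pair {k : Type} [CommRing k] [Algebra ℚ k] (Z : List X → k) :
    FreeAlgebra ℚ X →ₗ[ℚ] k :=
  (FreeAlgebra.basisFreeMonoid ℚ X).constr ℚ fun m => Z m.toList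

lemma pair_word {k : Type} [CommRing k] [Algebra ℚ k] (Z : List X → k) (w : List X) :
    pair Z (word w) = Z w := by
  rw [← basis_apply, pair, Module.Basis.constr_basis]
  rfl

/-- The linear extension of a product of words with values in lists of words. -/
noncomputable def lp (b : List X → List X → List (List X)) :
    FreeAlgebra ℚ X →ₗ[ℚ] FreeAlgebra ℚ X →ₗ[ℚ] FreeAlgebra ℚ X :=
  (FreeAlgebra.basisFreeMonoid ℚ X).constr ℚ fun u =>
    (FreeAlgebra.basisFreeMonoid ℚ X).constr ℚ fun v => ((b u.toList v.toList).map word).sum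

lemma lp_word (b : List X → List X → List (List X)) (u v : List X) :
    lp b (word u) (word v) = ((b u v).map word).sum := by
  rw [← basis_apply, ← basis_apply v, lp, Module.Basis.constr_basis, Module.Basis.constr_basis]
  rfl

/-- `T` is a derivation for the product `b`. -/
def IsDer (b : List X → List X → List (List X))
    (T : FreeAlgebra ℚ X →ₗ[ℚ] FreeAlgebra ℚ X) : Prop :=
  ∀ f g : FreeAlgebra ℚ X, T (lp b f g) = lp b (T f) g + lp b f (T g)

/-- `Z` is multiplicative for the product `b`. -/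
def Mult {k : Type} [CommRing k] (b : List X → List X → List (List X)) (Z : List X → k) : Prop :=
  ∀ u v : List X, ((b u v).map Z).sum = Z u * Z v

/-- The function `w ↦ ∑_m (1/m!) Z(T^m w) t^m`, a polynomial in `t`. -/
noncomputable def expP {k : Type} [CommRing k] [Algebra ℚ k] (wt : List X → ℕ)
    (T : Module.End ℚ (FreeAlgebra ℚ X)) (Z : List X → k) (w : List X) : Polynomial k :=
  ∑ m ∈ Finset.range (wt w + 1),
    Polynomial.monomial m (((m.factorial : ℚ)⁻¹) • pair Z ((T ^ m) (word w)))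

end General

/-! ### the alphabets `X` and `Y` -/

/-- The derivation of `ℚ⟨X⟩` with `x₀ ↦ 1`, `x₁ ↦ 0`. -/
noncomputable def dX : Module.End ℚ QX := gd fun b : Bool => if b then 0 else 1

/-- The derivation of `ℚ⟨Y⟩` with `y_n ↦ (n - 1) y_{n-1}`. -/
noncomputable def dY : Module.End ℚ QY := gd fun n : ℕ+ => ((n : ℚ) - 1) • yy ((n : ℕ) - 1)

/-- The values of the derivation `x₀ ↦ [ψ, x₀]`, `x₁ ↦ 0`. -/
noncomputable def eX (ψ : QX) (b : Bool) : QX := if b then 0 else ψ * X0 - X0 * ψ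

/-- `S_ψ`, as a linear map. -/
noncomputable def actL (ψ : QX) : QX →ₗ[ℚ] QX := LinearMap.mulLeft ℚ ψ + derL ψ

lemma actL_apply (ψ f : QX) : actL ψ f = FL.act ψ f := by
  simp [actL, FL.act, derL_apply]

/-- The anti-automorphism `y_n ↦ (-1)^n y_n` of `ℚ⟨Y⟩`. -/
noncomputable def sgY : QY →ₗ[ℚ] QY :=
  (MulOpposite.opLinearEquiv ℚ).symm.toLinearMap.comp
    (FreeAlgebra.lift ℚ (fun n : ℕ+ =>
      MulOpposite.op ((-1 : ℚ) ^ (n : ℕ) • (FreeAlgebra.ι ℚ n : QY)))).toLinearMap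

lemma sgY_apply (f : QY) : sgY f = (FreeAlgebra.lift ℚ (fun n : ℕ+ =>
    MulOpposite.op ((-1 : ℚ) ^ (n : ℕ) • (FreeAlgebra.ι ℚ n : QY))) f).unop := rfl

lemma sgY_mul (f g : QY) : sgY (f * g) = sgY g * sgY f := by
  simp [sgY_apply]

lemma sgY_one : sgY 1 = 1 := by
  simp [sgY_apply]

lemma sgY_iota (n : ℕ+) : sgY (FreeAlgebra.ι ℚ n) = (-1 : ℚ) ^ (n : ℕ) • FreeAlgebra.ι ℚ n := by
  simp [sgY_apply]

/-- The coefficient of the correction: `((-1)^(n-1)/n) (ψ | x₀^(n-1) x₁)`. -/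
noncomputable def kap (n : ℕ) (ψ : QX) : ℚ :=
  (-1) ^ (n - 1) / (n : ℚ) * coeff ψ (List.replicate (n - 1) false ++ [true])

/-- `Θ = ψ + κ x₁^n`. -/
noncomputable def Tht (n : ℕ) (ψ : QX) : QX := ψ + kap n ψ • X1 ^ n

/-- The shuffle coproduct. -/
noncomputable def Dsh : QX →ₐ[ℚ] QX ⊗[ℚ] QX :=
  FreeAlgebra.lift ℚ fun b : Bool =>
    (FreeAlgebra.ι ℚ b : QX) ⊗ₜ[ℚ] (1 : QX) + (1 : QX) ⊗ₜ[ℚ] (FreeAlgebra.ι ℚ b : QX)

/-- `(x₁ w) ↦ w`, and `w ↦ 0` if `w` does not begin with `x₁`. -/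
noncomputable def tlw : List Bool → QX
  | true :: w => word w
  | _ => 0

/-- The linear map with `x₁ w ↦ w`, and `w ↦ 0` if `w` does not begin with `x₁`. -/
noncomputable def lam : Module.End ℚ QX :=
  (FreeAlgebra.basisFreeMonoid ℚ Bool).constr ℚ fun m => tlw m.toList

lemma lam_word (w : List Bool) : lam (word w) = tlw w := by
  rw [← basis_apply, lam, Module.Basis.constr_basis]
  rfl

/-- The operator `h ↦ D h + h p` on `ℚ⟨Y⟩`, `D` the derivation with the values `e`. -/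
noncomputable def sY (e : ℕ+ → QY) (p : QY) : QY →ₗ[ℚ] QY := gd e + LinearMap.mulRight ℚ p

lemma sY_apply (e : ℕ+ → QY) (p h : QY) : sY e p h = gd e h + h * p := by
  simp [sY]

/-- `y_m` for `m ≥ 1`, `y_0 = 1`, and `0` for `m < 0`. -/
noncomputable def Yv (m : ℤ) : QY := if 0 ≤ m then yy m.toNat else 0

/-- `p_i = ∂^i p / i!`. -/
noncomputable def pp (i : ℕ) (p : QY) : QY := ((i.factorial : ℚ)⁻¹) • (dY ^ i) p

/-- `E_m = ∑_i (-1)^i (p_i y_{m+i} - y_{m+i} q_i)`. -/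
noncomputable def EE (p q : QY) (n : ℕ) (m : ℤ) : QY :=
  ∑ i ∈ Finset.range (n + 1), (-1 : ℚ) ^ i • (pp i p * Yv (m + i) - Yv (m + i) * pp i q)

/-- The weight of a word in the letters `y_n`. -/
def wtY (u : List ℕ+) : ℕ := (toX u).length

/-- `ψ ∈ dm₀`, homogeneous of weight `n ≥ 3`, and `p = ψ_*`. -/
structure Dat (n : ℕ) (ψ : QX) (p : QY) : Prop where
  mem : ψ ∈ dm0
  hom : IsHom n ψ
  le : 3 ≤ n
  co : ∀ u, coeff p u = starCoeff ψ u
  pr : Delta p = p ⊗ₜ[ℚ] 1 + 1 ⊗ₜ[ℚ] p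

/-- The polynomials `∑_l (κ^l / l!) γ_{i - n l} t^l`. -/
noncomputable def gamP {k : Type} [CommRing k] [Algebra ℚ k] (n : ℕ) (κ : ℚ) (γ : ℕ → k)
    (i : ℕ) : Polynomial k :=
  ∑ l ∈ Finset.range (i + 1), if n * l ≤ i then
    Polynomial.monomial l (((l.factorial : ℚ)⁻¹ * κ ^ l) • γ (i - n * l)) else 0

end Pool.Agent.MP_a57f33_nt.RT
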