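import Pool.Agent.Lib.MP_a57f33_nt.RT.Bridge
import Pool.Agent.Lib.MP_a57f33_nt.RT.P.adj
import Pool.Agent.Lib.MP_a57f33_nt.RT.P.adx
import Pool.Agent.Lib.MP_a57f33_nt.RT.P.dec
import Pool.Agent.Lib.MP_a57f33_nt.RT.P.dert
import Pool.Agent.Lib.MP_a57f33_nt.RT.P.dif
import Pool.Agent.Lib.MP_a57f33_nt.RT.P.expc
import Pool.Agent.Lib.MP_a57f33_nt.RT.P.expm
import Pool.Agent.Lib.MP_a57f33_nt.RT.P.ext
import Pool.Agent.Lib.MP_a57f33_nt.RT.P.fri
import Pool.Agent.Lib.MP_a57f33_nt.RT.P.gam
import Pool.Agent.Lib.MP_a57f33_nt.RT.P.map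
import Pool.Agent.Lib.MP_a57f33_nt.RT.P.one
import Pool.Agent.Lib.MP_a57f33_nt.RT.P.shp
import Pool.Agent.Lib.MP_a57f33_nt.RT.P.sol
import Pool.Agent.Lib.MP_a57f33_nt.RT.P.sta
import Pool.Agent.Lib.MP_a57f33_nt.RT.P.step
import Pool.Agent.Lib.MP_a57f33_nt.RT.P.sty
import Pool.Agent.Lib.MP_a57f33_nt.RT.P.tor
import Pool.Agent.Lib.MP_a57f33_nt.RT.P.ty
import Pool.Agent.Lib.MP_a57f33_nt.GZ.P_acth
import Pool.Agent.Lib.MP_a57f33_nt.GZ.P_actz
import Pool.Agent.Lib.MP_a57f33_nt.GZ.P_af
import Pool.Agent.Lib.MP_a57f33_nt.GZ.P_alte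
import Pool.Agent.Lib.MP_a57f33_nt.GZ.P_cf
import Pool.Agent.Lib.MP_a57f33_nt.GZ.P_cod
import Pool.Agent.Lib.MP_a57f33_nt.GZ.P_ends
import Pool.Agent.Lib.MP_a57f33_nt.GZ.P_gen
import Pool.Agent.Lib.MP_a57f33_nt.GZ.P_ggk
import Pool.Agent.Lib.MP_a57f33_nt.GZ.P_h0
import Pool.Agent.Lib.MP_a57f33_nt.GZ.P_hj
import Pool.Agent.Lib.MP_a57f33_nt.GZ.P_kv
import Pool.Agent.Lib.MP_a57f33_nt.GZ.P_mul
import Pool.Agent.Lib.MP_a57f33_nt.GZ.P_nil
import Pool.Agent.Lib.MP_a57f33_nt.GZ.P_p0
import Pool.Agent.Lib.MP_a57f33_nt.GZ.P_prm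
import Pool.Agent.Lib.MP_a57f33_nt.GZ.P_rvx
import Pool.Agent.Lib.MP_a57f33_nt.GZ.P_shx
import Pool.Agent.Lib.MP_a57f33_nt.GZ.P_sx
import Pool.Agent.Lib.MP_a57f33_nt.GZ.P_tel
import Pool.Agent.Lib.MP_a57f33_nt.GZ.P_up
import Pool.Agent.Lib.MP_a57f33_nt.GZ.P_xpl

/-!
# Racinet's torsor theorem and Zagier's formula: assembly
-/

namespace Pool.Agent.MP_a57f33_nt.RT

open Pool.Agent.MP_a57f33_nt TensorProduct

/-! ### the torsor theorem -/

theorem yact : S_yact :=
  b_yact GZ.p_ends GZ.p_nil (GZ.p_xpl GZ.p_up) GZ.p_rvx GZ.p_h0 GZ.p_hj GZ.p_ggk GZ.p_cod GZ.p_prm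
    GZ.p_gen GZ.p_mul GZ.p_sx GZ.p_cf

theorem codx : S_codx := b_codx GZ.p_shx

/-- The flows of the elements of `dm0` preserve the regularised double shuffle relations. -/
theorem sol : S_sol :=
  p_sol yact p_shp codx p_adj p_dert p_expc (p_expm p_expc) p_adx p_ty (p_sty p_expc p_sta)
    p_gam (p_one p_expc)

/-- Two solutions which agree in weights `< n` differ in weight `n` by an element of `dm0`. -/
theorem dif : S_dif := p_dif p_shp p_ext (p_fri p_shp p_ext)

theorem step : S_step := p_step p_adj p_adx (p_one p_expc) sol dif p_dec p_map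

/-- Racinet's torsor theorem. -/
theorem tor : S_tor := p_tor step

/-! ### Zagier's formula -/

section

attribute [local instance 100] LieRing.ofAssociativeRing

theorem dm0_zero : (0 : QX) ∈ dm0 := by
  refine ⟨zero_mem _, ?_, ?_, ?_, 0, ?_, ?_⟩
  · simp [coeff]
  · simp [coeff]
  · simp [coeff]
  · intro u
    simp [coeff, starCoeff]
  · simp

theorem dm0_smul (r : ℚ) {φ : QX} (h : φ ∈ dm0) : r • φ ∈ dm0 := by
  obtain ⟨h1, h2, h3, h4, p, h5, h6⟩ := h
  refine ⟨LieX.smul_mem r h1, ?_, ?_, ?_, r • p, ?_, ?_⟩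
  · rw [coeff_smul, h2, mul_zero]
  · rw [coeff_smul, h3, mul_zero]
  · rw [coeff_smul, h4, mul_zero]
  · intro u
    rw [coeff_smul, h5, starCoeff_smul]
  · rw [map_smul, h6, smul_add, smul_tmul', tmul_smul]

end

section

variable {k : Type} [CommRing k] [Algebra ℚ k]

private lemma fin_shuffle_length {α : Type} (N : ℕ) : ∀ u v : List α, u.length + v.length = N →
    ∀ t ∈ Cyc.shuffle u v, t.length = N := by
  induction N using Nat.strong_induction_on with
  | _ N ih =>
    intro u v hN t ht
    cases u with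
    | nil =>
      rw [Cyc.shuffle] at ht
      rw [List.mem_singleton] at ht
      subst ht
      simpa using hN
    | cons a u =>
      cases v with
      | nil =>
        rw [Cyc.shuffle] at ht
        rw [List.mem_singleton] at ht
        subst ht
        simpa using hN
      | cons b v =>
        simp only [List.length_cons] at hN
        rw [Cyc.shuffle] at ht
        rw [List.mem_append, List.mem_map, List.mem_map] at ht
        rcases ht with ⟨s, hs, rfl⟩ | ⟨s, hs, rfl⟩
        · have := ih (N - 1) (by omega) u (b :: v) (by simp only [List.length_cons]; omega) s hs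
          simp only [List.length_cons]; omega
        · have := ih (N - 1) (by omega) (a :: u) v (by simp only [List.length_cons]; omega) s hs
          simp only [List.length_cons]; omega

private lemma fin_toX_cons (a : ℕ+) (u : List ℕ+) :
    (toX (a :: u)).length = (a : ℕ) + (toX u).length := by
  have := a.pos
  simp only [toX, List.length_append, List.length_replicate, List.length_cons]
  omega

private lemma fin_stuffle_length (N : ℕ) : ∀ u v : List ℕ+, u.length + v.length = N →
    ∀ t ∈ Cyc.stuffle u v, (toX t).length = (toX u).length + (toX v).length := by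
  induction N using Nat.strong_induction_on with
  | _ N ih =>
    intro u v hN t ht
    cases u with
    | nil =>
      rw [Cyc.stuffle] at ht
      rw [List.mem_singleton] at ht
      subst ht
      simp [toX]
    | cons a u =>
      cases v with
      | nil =>
        rw [Cyc.stuffle] at ht
        rw [List.mem_singleton] at ht
        subst ht
        simp [toX]
      | cons b v =>
        simp only [List.length_cons] at hN
        rw [Cyc.stuffle] at ht
        rw [List.mem_append, List.mem_append, List.mem_map, List.mem_map, List.mem_map] at ht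
        rcases ht with (⟨s, hs, rfl⟩ | ⟨s, hs, rfl⟩) | ⟨s, hs, rfl⟩
        · have := ih (N - 1) (by omega) u (b :: v) (by simp only [List.length_cons]; omega) s hs
          rw [fin_toX_cons, fin_toX_cons a u, this]; omega
        · have := ih (N - 1) (by omega) (a :: u) v (by simp only [List.length_cons]; omega) s hs
          rw [fin_toX_cons, fin_toX_cons b v, this]; omega
        · have := ih (N - 2) (by omega) u v (by omega) s hs
          rw [fin_toX_cons, fin_toX_cons a u, fin_toX_cons b v, this, PNat.add_coe]; omega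

private lemma fin_toX_append (u v : List ℕ+) : toX (u ++ v) = toX u ++ toX v := by
  induction u with
  | nil => simp [toX]
  | cons a u ih => simp [toX, ih]

private lemma fin_toX_rep (i : ℕ) : (toX (List.replicate i 1)).length = i := by
  induction i with
  | zero => simp [toX]
  | succ i ih => rw [List.replicate_succ, fin_toX_cons, ih, PNat.one_coe]; omega

private lemma fin_drop (u : List ℕ+) (i : ℕ) (h : u.take i = List.replicate i 1) :
    (toX (u.drop i)).length + i = (toX u).length := by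
  have h1 : toX u = toX (u.take i) ++ toX (u.drop i) := by
    rw [← fin_toX_append, List.take_append_drop]
  rw [h1, h, List.length_append, fin_toX_rep]; omega

omit [Algebra ℚ k] in
private lemma fin_list_sum {α : Type} (F : α → k) (e : α → ℕ) (m : ℕ) (l : List α)
    (h : ∀ t ∈ l, e t = m) :
    (l.map fun t => (-1) ^ e t * F t).sum = (-1) ^ m * (l.map F).sum := by
  induction l with
  | nil => simp
  | cons a l ih =>
    rw [List.map_cons, List.sum_cons, List.map_cons, List.sum_cons,
      ih (fun t ht => h t (List.mem_cons_of_mem _ ht)), h a List.mem_cons_self]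
    ring

omit [Algebra ℚ k] in
/-- `w ↦ (-1)^|w| Z(w)` is a solution if `Z` is one. -/
theorem b_sign {γ : ℕ → k} {Z : List Bool → k} (h : Cyc.RegDS γ Z) :
    Cyc.RegDS (fun i => (-1) ^ i * γ i) (fun w => (-1) ^ w.length * Z w) := by
  have hstar : ∀ u : List ℕ+, Cyc.star (fun i => (-1) ^ i * γ i)
      (fun w => (-1) ^ w.length * Z w) u = (-1) ^ (toX u).length * Cyc.star γ Z u := by
    intro u
    unfold Cyc.star
    rw [Finset.mul_sum]
    refine Finset.sum_congr rfl fun i _ => ?_
    split_ifs with hi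
    · rw [← fin_drop u i hi, pow_add]
      ring
    · rw [mul_zero]
  refine ⟨by simp [h.one], by simp [h.x0], by simp [h.x1], ?_, by simp [h.gamma_zero], ?_, ?_⟩
  · intro u v
    rw [fin_list_sum Z List.length (u.length + v.length) _
      (fun t ht => fin_shuffle_length _ u v rfl t ht), h.shuffle_rel, pow_add]
    ring
  · intro n
    have h1 := h.gamma_succ n
    calc ((n : k) + 1) * ((-1) ^ (n + 1) * γ (n + 1))
        = (-1) ^ (n + 1) * (((n : k) + 1) * γ (n + 1)) := by ring
      _ = _ := by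
        rw [h1, Finset.mul_sum]
        refine Finset.sum_congr rfl fun ij hij => ?_
        rw [Finset.HasAntidiagonal.mem_antidiagonal] at hij
        have h2 : (List.replicate ij.2 false ++ [true]).length = ij.2 + 1 := by simp
        rw [h2, ← hij, pow_succ, pow_add, pow_succ]
        ring
  · intro u v
    have h1 : Cyc.star (fun i => (-1) ^ i * γ i) (fun w => (-1) ^ w.length * Z w) =
        fun u => (-1) ^ (toX u).length * Cyc.star γ Z u := funext hstar
    rw [h1]
    simp only
    rw [fin_list_sum (Cyc.star γ Z) (fun u => (toX u).length) ((toX u).length + (toX v).length) _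
      (fun t ht => fin_stuffle_length _ u v rfl t ht), h.stuffle_rel, pow_add]
    ring

/-- The lowest odd part of a solution is in `dm₀ ⊗ k`. -/
theorem b_F2 : GZ.F2S := by
  intro k _ _ N Z γ hN hZ hv L
  by_cases hN3 : 3 ≤ N
  · obtain ⟨φ, h1, h2, h3⟩ := dif γ _ Z _ N hN3 hZ (b_sign hZ) (fun w hw => by
      rcases Nat.even_or_odd w.length with he | ho
      · rw [he.neg_one_pow, one_mul]
      · rw [hv w ho hw, mul_zero]) ((1 / 2 : ℚ) • L)
    refine ⟨φ, h1, h2, fun w => ?_⟩
    unfold GZ.part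
    by_cases hw : w.length = N
    · have ho : Odd w.length := by rw [hw]; exact hN
      rw [h3 w hw, if_pos hw, ho.neg_one_pow]
      rw [show Z w - -1 * Z w = (2 : ℚ) • Z w by rw [two_smul]; ring, LinearMap.smul_apply, map_smul,
        smul_smul]
      norm_num
    · rw [h2 w hw, if_neg hw, map_zero]
  · have hN1 : N = 1 := by
      obtain ⟨c, hc⟩ := hN
      omega
    refine ⟨0, dm0_zero, fun w _ => by simp [coeff], fun w => ?_⟩
    unfold GZ.part
    split_ifs with hw
    · rw [hN1] at hw
      obtain ⟨x, rfl⟩ := List.length_eq_one_iff.mp hw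
      cases x
      · rw [hZ.x0, map_zero]; simp [coeff]
      · rw [hZ.x1, map_zero]; simp [coeff]
    · rw [map_zero]; simp [coeff]

theorem b_DM {N : ℕ} {φ : QX} (h : φ ∈ dm0) (hφ : IsHom N φ) (c : k) :
    GZ.DM N (fun v => c * cf φ v) := by
  intro l
  refine ⟨l c • φ, dm0_smul _ h, hφ.smul _, fun w => ?_⟩
  have h1 : c * (cf φ w : k) = coeff φ w • c := by
    rw [Algebra.smul_def, mul_comm]
    rfl
  rw [coeff_smul]
  change l c * coeff φ w = l (c * cf φ w)
  rw [h1, map_smul, smul_eq_mul, mul_comm]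

/-- One step: a solution whose odd part vanishes below `N` can be changed into one whose odd part
vanishes below `N + 2`, without changing `FF a b`. -/
theorem b_step (a b s : ℕ) (hs : 1 ≤ s) (γ : ℕ → k) (Z : List Bool → k)
    (h : Cyc.RegDS γ Z) (hv : GZ.OddVan (2 * s + 1) Z) :
    ∃ (γ' : ℕ → k) (Z' : List Bool → k), Cyc.RegDS γ' Z' ∧ GZ.OddVan (2 * (s + 1) + 1) Z' ∧
      GZ.FF a b Z' = GZ.FF a b Z := by
  classical
  have hF := b_F2 k (2 * s + 1) Z γ ⟨s, rfl⟩ h hv
  obtain ⟨r, e, L, hL⟩ := p_dec (k := k) (2 * s + 1) (fun w => - Z w)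
  choose φ hφ1 hφ2 hφ3 using fun j : Fin r => hF (-(L j))
  have hsum : ∀ w : List Bool, w.length = 2 * s + 1 →
      ∑ j, coeff (φ j) w • e j = - Z w := by
    intro w hw
    rw [hL w hw]
    refine Finset.sum_congr rfl fun j _ => ?_
    rw [hφ3 j w, GZ.part, if_pos hw, LinearMap.neg_apply, map_neg]
  have key : ∀ S : Finset (Fin r), ∃ (γ' : ℕ → k) (Z' : List Bool → k), Cyc.RegDS γ' Z' ∧
      (∀ w : List Bool, w.length < 2 * s + 1 → Z' w = Z w) ∧
      (∀ w : List Bool, w.length = 2 * s + 1 → Z' w = Z w + ∑ j ∈ S, coeff (φ j) w • e j) ∧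
      GZ.FF a b Z' = GZ.FF a b Z := by
    intro S
    induction S using Finset.induction_on with
    | empty => exact ⟨γ, Z, h, fun w _ => rfl, fun w _ => by simp, rfl⟩
    | insert j S hj ih =>
      obtain ⟨γ1, Z1, h1, h2, h3, h4⟩ := ih
      obtain ⟨γ2, h5⟩ := b_F1 GZ.p_af p_adj sol p_map γ1 Z1 h1 (hφ1 j) (hφ2 j) (by omega) (e j)
      refine ⟨γ2, _, h5, ?_, ?_, ?_⟩
      · intro w hw
        rw [GZ.expA_of_zero _ _ _ _ fun Y => GZ.act_short _ _ _ _ hw]
        exact h2 w hw
      · intro w hw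
        rw [GZ.expA_of_zero2]
        · rw [GZ.act_full _ _ _ _ hw, h1.one, h3 w hw, Finset.sum_insert hj, cf,
            Algebra.smul_def]
          ring
        · intro e0
          rw [e0] at hw
          simp at hw
        · intro Y
          rw [GZ.act_full _ _ _ _ hw, GZ.act_nil _ (by omega), mul_zero]
      · rw [GZ.FF_expA GZ.p_p0 GZ.p_kv GZ.p_alte GZ.p_actz GZ.p_acth GZ.p_tel _ Z1 h1.one s a b hs
          (b_DM (hφ1 j) (hφ2 j) (e j))]
        exact h4
  obtain ⟨γ', Z', h1, h2, h3, h4⟩ := key Finset.univ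
  refine ⟨γ', Z', h1, ?_, h4⟩
  intro w hwo hwl
  by_cases hw : w.length < 2 * s + 1
  · rw [h2 w hw]
    exact hv w hwo hw
  · have hlen : w.length = 2 * s + 1 := by
      obtain ⟨c, hc⟩ := hwo
      omega
    rw [h3 w hlen, hsum w hlen, add_neg_cancel]

/-- Zagier's formula, with its products, for every solution of the regularised double shuffle
relations. -/
theorem zagier (a b : ℕ) (γ : ℕ → k) (Z : List Bool → k) (h : Cyc.RegDS γ Z) :
    GZ.FF a b Z = 0 := by
  have key : ∀ m : ℕ, ∃ (γ' : ℕ → k) (Z' : List Bool → k), Cyc.RegDS γ' Z' ∧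
      GZ.OddVan (2 * (m + 1) + 1) Z' ∧ GZ.FF a b Z' = GZ.FF a b Z := by
    intro m
    induction m with
    | zero =>
      refine ⟨γ, Z, h, ?_, rfl⟩
      intro w ho hl
      obtain ⟨c, hc⟩ := ho
      have h1 : w.length = 1 := by omega
      obtain ⟨x, rfl⟩ := List.length_eq_one_iff.mp h1
      cases x
      · exact h.x0
      · exact h.x1
    | succ m ih =>
      obtain ⟨γ1, Z1, h1, h2, h3⟩ := ih
      obtain ⟨γ2, Z2, h4, h5, h6⟩ := b_step a b (m + 1) (by omega) γ1 Z1 h1 h2
      exact ⟨γ2, Z2, h4, h5, h6.trans h3⟩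
  obtain ⟨γ', Z', h1, h2, h3⟩ := key (a + b + 1)
  rw [← h3]
  unfold GZ.FF
  rw [h2 (BZ.hw a b) (by rw [GZ.hw_length]; exact ⟨_, rfl⟩) (by rw [GZ.hw_length]; omega)]
  rw [Finset.sum_eq_zero, sub_zero]
  intro r hr
  rw [Finset.mem_range] at hr
  rw [h2 (List.replicate (2 * (r + 1)) false ++ [true])
    (by simp only [List.length_append, List.length_replicate, List.length_singleton]
        exact ⟨_, rfl⟩)
    (by simp only [List.length_append, List.length_replicate, List.length_singleton]; omega)]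
  simp

end

end Pool.Agent.MP_a57f33_nt.RT
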