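import Pool.Agent.Lib.MP_a57f33_nt.RT.Stm
import Pool.Agent.Lib.MP_a57f33_nt.GZ.AsmR
import Pool.Agent.Lib.MP_a57f33_nt.GZ.AsmD

/-!
The bridge between the two forms of the flows.
-/

namespace Pool.Agent.MP_a57f33_nt.RT

open Pool.Agent.MP_a57f33_nt TensorProduct

/-- Racinet's theorem. -/
theorem b_yact (hends : GZ.EndsS) (hnil : GZ.NilS) (hxpl : GZ.XplS) (hrvx : GZ.RvxS)
    (hh0 : GZ.H0S) (hhj : GZ.HjS) (hggk : GZ.GgkS) (hcod : GZ.CodS) (hprm : GZ.PrmS)
    (hgen : GZ.GenS) (hmul : GZ.MulS) (hsx : GZ.SxS) (hcf : GZ.CfS) : S_yact := by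
  intro ψ h n hN hn
  obtain ⟨p, hp, hprim⟩ := h.2.2.2.2
  obtain ⟨h1, h2, -⟩ := GZ.racinet hends hnil hxpl hrvx hh0 hhj hggk hcod hprm hgen hmul hsx hcf
    h hN hp hprim
  refine ⟨GZ.sYst n p, h1, fun W u => ?_⟩
  rw [h2 W u, coeff_add, coeff_smul]
  have e1 : GZ.kap n ψ = kap n ψ := by
    unfold GZ.kap kap
    rw [if_pos (by omega)]
  have e2 : X1 ^ n * inY W = inY ((FreeAlgebra.ι ℚ (1 : ℕ+)) ^ n * W) := by
    rw [map_mul, map_pow, inY_iota]
    simp
  rw [e1, e2, coeff_inY]
  rfl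

theorem b_codx (h : GZ.ShxS) : S_codx := fun ψ hψ f => h ψ hψ f

section

variable {k : Type} [CommRing k] [Algebra ℚ k]

/-- The function `v ↦ (φ | v)` with values in `k`. -/
noncomputable def cf (φ : QX) (v : List Bool) : k := algebraMap ℚ k (coeff φ v)

theorem b_T (haf : GZ.AfS) {N : ℕ} {φ : QX} (hφ : IsHom N φ) {T : Module.End ℚ QX}
    (hT : IsAdj (actL φ) T) (w : List Bool) :
    T (word w) = ∑ i ∈ Finset.range (w.length + 1 - N),
      ((((if i = 0 ∨ w[i - 1]? = some true then 1 else 0) -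
        (if w[i + N]? = some true then 1 else 0)) * coeff φ ((w.drop i).take N) : ℚ)) •
          word (w.take i ++ w.drop (i + N)) := by
  apply ext_coeff
  intro a
  rw [← hT a w]
  have h1 : coeff (actL φ (word a)) w = GZ.act N (coeff φ) (coeff (word a)) w :=
    (haf N φ (word a) w hφ).symm
  rw [h1, GZ.act, ← coeffL_apply, map_sum]
  refine Finset.sum_congr rfl fun i _ => ?_
  rw [map_smul, coeffL_apply, smul_eq_mul]
  congr 1
  rw [coeff_word, coeff_word]
  by_cases h : a = w.take i ++ w.drop (i + N)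
  · rw [if_pos h, if_pos h.symm]
  · rw [if_neg h, if_neg fun e => h e.symm]

theorem b_pair (haf : GZ.AfS) {N : ℕ} {φ : QX} (hφ : IsHom N φ) {T : Module.End ℚ QX}
    (hT : IsAdj (actL φ) T) (Z : List Bool → k) (w : List Bool) :
    pair Z (T (word w)) = GZ.act N (cf φ) Z w := by
  rw [b_T haf hφ hT, map_sum, GZ.act]
  refine Finset.sum_congr rfl fun i _ => ?_
  rw [map_smul, pair_word, Algebra.smul_def, map_mul, map_sub]
  congr 2
  congr 1
  · split_ifs <;> simp
  · split_ifs <;> simp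

theorem b_pair_comp (haf : GZ.AfS) {N : ℕ} {φ : QX} (hφ : IsHom N φ) {T : Module.End ℚ QX}
    (hT : IsAdj (actL φ) T) (Z : List Bool → k) (f : QX) :
    pair Z (T f) = pair (GZ.act N (cf φ) Z) f := by
  have h : (pair Z).comp T = pair (GZ.act N (cf φ) Z) := by
    apply linear_ext
    intro w
    rw [LinearMap.comp_apply, b_pair haf hφ hT, pair_word]
  exact LinearMap.congr_fun h f

theorem b_iter (haf : GZ.AfS) {N : ℕ} {φ : QX} (hφ : IsHom N φ) {T : Module.End ℚ QX}
    (hT : IsAdj (actL φ) T) (m : ℕ) : ∀ (Z : List Bool → k) (f : QX),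
    pair Z ((T ^ m) f) = pair ((GZ.act N (cf φ))^[m] Z) f := by
  induction m with
  | zero => intro Z f; simp
  | succ m ih =>
    intro Z f
    rw [pow_succ', Module.End.mul_apply, b_pair_comp haf hφ hT, ih, Function.iterate_succ_apply]

theorem b_act_smul (N : ℕ) (p Z : List Bool → k) (c : k) (w : List Bool) :
    GZ.act N (fun v => c * p v) Z w = c * GZ.act N p Z w := by
  unfold GZ.act
  rw [Finset.mul_sum]
  refine Finset.sum_congr rfl fun i _ => ?_
  ring

theorem b_act_smul' (N : ℕ) (p Z : List Bool → k) (c : k) (w : List Bool) :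
    GZ.act N p (fun v => c * Z v) w = c * GZ.act N p Z w := by
  unfold GZ.act
  rw [Finset.mul_sum]
  refine Finset.sum_congr rfl fun i _ => ?_
  ring

theorem b_iter_smul (N : ℕ) (p Z : List Bool → k) (c : k) (m : ℕ) :
    (GZ.act N (fun v => c * p v))^[m] Z = fun w => c ^ m * (GZ.act N p)^[m] Z w := by
  induction m with
  | zero => funext w; simp
  | succ m ih =>
    rw [Function.iterate_succ_apply', ih]
    funext w
    rw [b_act_smul, b_act_smul', Function.iterate_succ_apply', pow_succ']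
    ring

/-- The two forms of the flow. -/
theorem b_exp (haf : GZ.AfS) {N : ℕ} {φ : QX} (hφ : IsHom N φ) {T : Module.End ℚ QX}
    (hT : IsAdj (actL φ) T) (Z : List Bool → k) (c : k) :
    (fun w => (expP List.length T Z w).eval c) = GZ.expA N (fun v => c * cf φ v) Z := by
  funext w
  unfold expP GZ.expA
  rw [Polynomial.eval_finset_sum]
  refine Finset.sum_congr rfl fun m _ => ?_
  rw [Polynomial.eval_monomial, b_iter haf hφ hT, pair_word, b_iter_smul, smul_mul_assoc, mul_comm]

theorem b_raise {N : ℕ} {φ : QX} (hφ : IsHom N φ) (a w : List Bool)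
    (h : coeff (actL φ (word a)) w ≠ 0) : w.length = a.length + N := by
  by_contra hne
  apply h
  have h1 : IsHom (N + a.length) (actL φ (word a)) := by
    have : actL φ (word a) = φ * word a + der φ (word a) := by rw [actL_apply]; rfl
    rw [this]
    exact (hφ.mul (isHom_word a)).add (isHom_der hφ (isHom_word a))
  exact h1 w (by omega)

/-- The flows preserve the solutions. -/
theorem b_F1 (haf : GZ.AfS) (hadj : S_adj) (hsol : S_sol) (hmap : S_map) (γ : ℕ → k)
    (Z : List Bool → k) (hZ : Cyc.RegDS γ Z) {N : ℕ} {φ : QX} (h : φ ∈ dm0) (hφ : IsHom N φ)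
    (hN : 3 ≤ N) (c : k) : ∃ γ', Cyc.RegDS γ' (GZ.expA N (fun v => c * cf φ v) Z) := by
  obtain ⟨T, hT, -⟩ := hadj List.length (fun m => List.finite_length_eq Bool m) N (actL φ)
    (fun a w => b_raise hφ a w)
  have h1 := hsol γ Z N φ T hZ h hφ hN hT
  have h2 := hmap (Polynomial.evalRingHom c) _ _ h1
  refine ⟨fun i => (Polynomial.evalRingHom c) (gamP N (kap N φ) γ i), ?_⟩
  rw [← b_exp haf hφ hT]
  exact h2

end

end Pool.Agent.MP_a57f33_nt.RT
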