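import Pool.Agent.Lib.MP_a57f33_nt.RT.Defs

/-!
# Project RT (MP_a57f33_nt): Racinet's torsor theorem, statements with proofs in words

GOAL (`S_tor`): any two solutions `Z`, `Z'` of the regularised double shuffle relations over a
commutative `ℚ`-algebra with the same value at `x₀x₁` are related, up to any given weight, by
finitely many of the flows `exp(c S_φ)`, `φ ∈ dm₀` homogeneous of weight `≥ 3`, `c ∈ k`.

Notation. `QX = ℚ⟨x₀, x₁⟩`, `QY = ℚ⟨y₁, y₂, …⟩`, `inY : QY → QX` is the inclusion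
`y_n ↦ x₀^(n-1) x₁`, `word w` the monomial of the word `w`, `coeff f w` the coefficient.
`SS` is the anti-automorphism `x_i ↦ - x_i` of `QX`. `gd g` is the derivation with the values `g x`
at the letters; `cod S = S ⊗ 1 + 1 ⊗ S`. The piece `[xxx]` proves `p_xxx : S_a → S_b → … → S_xxx`,
with the hypotheses named in its docstring (in this order), in the file `RT/P/xxx.lean`, namespace
`Pool.Agent.MP_a57f33_nt.RT`, import `Pool.Agent.Lib.MP_a57f33_nt.RT.Stm`.

`actL ψ f = ψ f + der ψ f`; `κ = kap n ψ`.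
-/

namespace Pool.Agent.MP_a57f33_nt.RT

open Pool.Agent.MP_a57f33_nt TensorProduct

/-! ## Part B: the action and the coproducts

The first two statements are proved in `GZ` (part R, `racinet` and `ShxS`), by helper23. -/

/-- `S'` is the operator on `ℚ⟨Y⟩` which belongs to `S_ψ`, and it is a coderivation. -/
structure YAct (n : ℕ) (ψ : QX) (S' : QY →ₗ[ℚ] QY) : Prop where
  cod : ∀ h, Delta (S' h) = RT.cod S' (Delta h)
  co : ∀ (h : QY) (u : List ℕ+), coeff (S' h) u =
    coeff (actL ψ (inY h) + kap n ψ • (X1 ^ n * inY h)) (toX u)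

/-- [yact] Racinet's theorem (from `GZ`). -/
def S_yact : Prop := ∀ ψ ∈ dm0, ∀ n : ℕ, IsHom n ψ → 3 ≤ n → ∃ S' : QY →ₗ[ℚ] QY, YAct n ψ S'

/-- [codx] `S_ψ` is a coderivation for the shuffle coproduct (from `GZ`). -/
def S_codx : Prop := ∀ ψ ∈ LieX, ∀ f, Dsh (actL ψ f) = cod (actL ψ) (Dsh f)

/-- [shp] No hypotheses. PROOF. Like `cc_Delta`: linear in `f`, so `f = word w`, induction on `w` for all
`u, v`: `Dsh (x w) = (x ⊗ 1 + 1 ⊗ x) * Dsh w`, the coefficient of `u ⊗ v` in `(x ⊗ 1) * t` is the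
coefficient of `u' ⊗ v` in `t` if `u = x u'`, and `0` otherwise (tensor induction); recursion of `shuffle`.
The second statement is `cc_Delta` (`ccx` is `cc`), the two definitions of `stuffle` agree. -/
def S_shp : Prop := (∀ (f : QX) (u v : List Bool),
    ccx u v (Dsh f) = ((Cyc.shuffle u v).map (coeff f)).sum) ∧
  ∀ (f : QY) (u v : List ℕ+), ccx u v (Delta f) = ((Cyc.stuffle u v).map (coeff f)).sum

/-! ## Part C: the transposed operators and their exponentials -/

/-- [adj] No hypotheses. PROOF. For a word `w` put `t w = ∑_a coeff (S (word a)) w • word a`, over the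
finite set of the words `a` with `wt a + n = wt w`, and let `T` be the linear map with `T (word w) = t w`
(`Basis.constr` as in `lam`). -/
def S_adj : Prop := ∀ {X : Type} (wt : List X → ℕ), (∀ m : ℕ, {w : List X | wt w = m}.Finite) →
  ∀ (n : ℕ) (S : FreeAlgebra ℚ X →ₗ[ℚ] FreeAlgebra ℚ X),
  (∀ a w : List X, coeff (S (word a)) w ≠ 0 → wt w = wt a + n) →
  ∃ T : FreeAlgebra ℚ X →ₗ[ℚ] FreeAlgebra ℚ X, IsAdj S T ∧ Lowers wt n T

/-- [dert] No hypotheses. PROOF. Bilinear, so `f = word u`, `g = word v`; compare the coefficients of a word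
`a`. Left: `coeff (T (∑_{x ∈ b u v} word x)) a = ∑_x coeff (S (word a)) x = ccx u v (Δ (S (word a)))
= ccx u v (cod S (Δ (word a)))`. For all `t` (tensor induction, `linear_ext` for the factors):
`ccx u v (map S id t) = ∑_c coeff (T (word u)) c * ccx c v t` (sum over the support of `T (word u)`; i.e.
`coeff (S f) u = ∑_c coeff (T (word u)) c * coeff f c`), and `coeff (lp b (T (word u)) (word v)) a =
∑_c coeff (T (word u)) c * ∑_{x ∈ b c v} coeff (word x) a = ∑_c coeff (T (word u)) c * ccx c v (Δ (word a))`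
(`coeff (word x) a = coeff (word a) x`). The same for the second factor. -/
def S_dert : Prop := ∀ {X : Type} (b : List X → List X → List (List X))
  (Δ : FreeAlgebra ℚ X →ₗ[ℚ] FreeAlgebra ℚ X ⊗[ℚ] FreeAlgebra ℚ X),
  (∀ f u v, ccx u v (Δ f) = ((b u v).map (coeff f)).sum) →
  ∀ S T : FreeAlgebra ℚ X →ₗ[ℚ] FreeAlgebra ℚ X, (∀ h, Δ (S h) = cod S (Δ h)) → IsAdj S T →
    IsDer b T

/-- [expc] No hypotheses. PROOF. If `m > wt w` then `T^m (word w) = 0`: more generally all words `a` in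
`T^m (word w)` satisfy `wt w = wt a + n m` (induction on `m`; expand `T^m (word w)` in words). -/
def S_expc : Prop := ∀ {X : Type} {k : Type} [CommRing k] [Algebra ℚ k] (wt : List X → ℕ) (n : ℕ)
  (T : Module.End ℚ (FreeAlgebra ℚ X)), 1 ≤ n → Lowers wt n T →
  (∀ (m : ℕ) (w : List X), wt w < m → (T ^ m) (word w) = 0) ∧
  ∀ (Z : List X → k) (w : List X) (m : ℕ),
    (expP wt T Z w).coeff m = ((m.factorial : ℚ)⁻¹) • pair Z ((T ^ m) (word w))

/-- [expm] Hypothesis `S_expc`. PROOF. Compare the coefficients of `t^m`. Leibniz: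
`T^m (lp b f g) = ∑_{i+j=m} (m choose i) • lp b (T^i f) (T^j g)` (induction on `m`). `pair Z (lp b f g) =
pair Z f * pair Z g` (bilinear, `hZ` on words). `∑_{x ∈ b u v} (expP x).coeff m = (1/m!) pair Z (T^m (lp b
(word u) (word v))) = ∑_{i+j=m} (1/i!)(1/j!) pair Z (T^i u) pair Z (T^j v)`, `Polynomial.coeff_mul`. (The weight
hypothesis is not needed, `S_expc` holds for all words.) -/
def S_expm : Prop := ∀ {X : Type} {k : Type} [CommRing k] [Algebra ℚ k]
  (b : List X → List X → List (List X)) (wt : List X → ℕ) (n : ℕ)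
  (T : Module.End ℚ (FreeAlgebra ℚ X)) (Z : List X → k), 1 ≤ n → IsDer b T → Lowers wt n T →
  Mult b Z → Mult b (expP wt T Z)

/-- [adx] No hypotheses. PROOF. (1) `isHom_der`, `IsHom.mul`, `isHom_word`. (2) `coeff (lam g) a =
coeff g (true :: a)`; `actL ψ (X1 * f) = X1 * actL ψ f`; compare the coefficients of both sides for `f = word w` at `a`:
`coeff (T (lam (word w))) a` is `coeff (actL ψ (word a)) w'` if `w = true :: w'` and `0` otherwise, and
`coeff (lam (T (word w))) a = coeff (actL ψ (word (true :: a))) w = coeff (X1 * actL ψ (word a)) w`.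
(3) compare the coefficients at `a`: `coeff (ψ * word a + der ψ (word a)) (x₀^j x₁)`: for `a = []` it is
`coeff ψ (x₀^j x₁)`. For `a ≠ []` it is `0`: every word of `ψ` contains `x₁` (`lie_zs` in `Hexagon.lean`, or
`lie_ins`), so if `x₁` occurs in `a` all words of `ψ * word a` and `der ψ (word a)` contain `x₁` at least
twice; if `a = x₀^l`, `l ≥ 1`, then `der ψ (word a) = 0` and the words of `ψ * word a` end with `x₀`. -/
def S_adx : Prop := ∀ (n : ℕ) (ψ : QX) (T : Module.End ℚ QX), IsHom n ψ → IsAdj (actL ψ) T →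
  Lowers List.length n T ∧ (∀ f, T (lam f) = lam (T f)) ∧
  (ψ ∈ LieX → coeff ψ [false] = 0 → ∀ j : ℕ,
    T (word (List.replicate j false ++ [true])) =
      coeff ψ (List.replicate j false ++ [true]) • (1 : QX))

/-- [ty] No hypotheses. PROOF. `f = word u`, compare the coefficients at `w`. If `w = toX a`:
`coeff (inY (T' (word u))) (toX a) = coeff (T' (word u)) a = coeff (S' (word a)) u` (`coeff_inY`, `IsAdj`), by
`YAct.co` equal to `coeff (actL ψ (word (toX a))) (toX u) + κ coeff (X1^n word (toX a)) (toX u)` (`inY_word`),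
which is the right side at `toX a` (`IsAdj`; `coeff (lam^n g) w = coeff g (true^n ++ w)` and `coeff (word v) w`
is symmetric in `v`, `w`). If `w` ends with `x₀`: left `coeff_inY_false`; right `coeff (actL ψ (word w)) (toX u) = 0`
as `actL ψ (f X0) = (actL ψ f) X0` (`der_mul`, `der_false`) and `toX u` is empty or ends in `x₁`
(`coeff_mul_iota_snoc`, `coeff_mul_iota_nil`, `toX_ends`), and `true^n ++ w ≠ toX u`. -/
def S_ty : Prop := ∀ (n : ℕ) (ψ : QX) (S' : QY →ₗ[ℚ] QY), YAct n ψ S' →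
  ∀ (T : Module.End ℚ QX) (T' : Module.End ℚ QY), IsAdj (actL ψ) T → IsAdj S' T' →
  ∀ f : QY, inY (T' f) = T (inY f) + kap n ψ • (lam ^ n) (inY f)

/-- [sta] No hypotheses. PROOF. `lam^i (word (toX u))` is `word (toX (u.drop i))` if `u.take i = 1^i` and
`i ≤ u.length`, and `0` otherwise: induction on `i` or on `u` (`toX (1 :: u) = true :: toX u`, and for `n ≥ 2`
`toX (n :: u)` begins with `false`). For `i > u.length` the definition of `star` has no term. -/
def S_sta : Prop := ∀ {k : Type} [CommRing k] [Algebra ℚ k] (γ : ℕ → k) (Z : List Bool → k)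
  (u : List ℕ+) (N : ℕ), u.length ≤ N →
  Cyc.star γ Z u = ∑ i ∈ Finset.range (N + 1), γ i * pair Z ((lam ^ i) (word (toX u)))

/-- [sty] Hypotheses `S_expc`, `S_sta`. PROOF. Compare the coefficients of `t^m` at `u`, with `N ≥ |toX u| + n m`.
Right side: `pair (star γ Z) f = ∑_{i ≤ N} γ_i pair Z (lam^i (inY f))` for `f = T'^m (word u)` (linear in `f`; use
a form of `S_sta` with `N` large for all words of `f`: their lengths are `≤ wtY ≤ |toX u|`, or use that the
terms with `i > N` vanish), `inY (T'^m (word u)) = (T + κ lam^n)^m (word (toX u)) = ∑_{l+m'=m} (m choose l) κ^l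
lam^(n l) T^(m') (word (toX u))` (`Commute.add_pow'`, `T lam = lam T`). Left side: `(gamP i).coeff l =
(κ^l/l!) γ_(i - n l)` if `n l ≤ i`, else `0`, and `(pair (expP Z) g).coeff m' = (1/m'!) pair Z (T^m' g)`; with
`i = i' + n l`. Both are `∑_{l+m'=m} ∑_{i'} (κ^l/l!) (1/m'!) γ_(i') pair Z (lam^(i'+n l) T^m' (word (toX u)))`
(terms with `i' + n l > N` vanish: `lam^j (word w) = 0` for `j > |w|`). -/
def S_sty : Prop := ∀ {k : Type} [CommRing k] [Algebra ℚ k] (n : ℕ) (κ : ℚ) (T : Module.End ℚ QX)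
  (T' : Module.End ℚ QY), 1 ≤ n → Lowers List.length n T → Lowers wtY n T' →
  (∀ f, T (lam f) = lam (T f)) → (∀ f : QY, inY (T' f) = T (inY f) + κ • (lam ^ n) (inY f)) →
  ∀ (γ : ℕ → k) (Z : List Bool → k) (u : List ℕ+),
    Cyc.star (gamP n κ γ) (expP List.length T Z) u = expP wtY T' (Cyc.star γ Z) u

/-- [gam] No hypotheses. PROOF. `gamP n κ γ 0 = γ 0 = 1`. Coefficient of `t^l` in the second: left
`(m+1) (κ^l/l!) γ_(m+1-nl)` (or `0` if `nl > m+1`); right `(κ^l/l!) ∑_{i+j=m, nl ≤ i} γ_(i-nl) (-1)^j Z(x₀^j x₁)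
= (κ^l/l!) (m+1-nl) γ_(m+1-nl)` (the relation for `γ`, if `nl ≤ m`) plus, from the term `j = n-1` and for `l ≥ 1`,
`(κ^(l-1)/(l-1)!) γ_(m+1-nl) (-1)^(n-1) c`, which is `(κ^l/l!) n l γ_(m+1-nl)` because `n κ = (-1)^(n-1) c`. -/
def S_gam : Prop := ∀ {k : Type} [CommRing k] [Algebra ℚ k] (n : ℕ) (κ c : ℚ) (γ : ℕ → k)
  (Z : List Bool → k) (ZP : List Bool → Polynomial k), 1 ≤ n → κ = (-1) ^ (n - 1) / (n : ℚ) * c →
  γ 0 = 1 → (∀ m : ℕ, ((m : k) + 1) * γ (m + 1) =
    ∑ ij ∈ Finset.HasAntidiagonal.antidiagonal m,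
      γ ij.1 * ((-1) ^ ij.2 * Z (List.replicate ij.2 false ++ [true]))) →
  (∀ j : ℕ, ZP (List.replicate j false ++ [true]) = Polynomial.C (Z (List.replicate j false ++ [true])) +
    if j + 1 = n then Polynomial.monomial 1 (algebraMap ℚ k c) else 0) →
  gamP n κ γ 0 = 1 ∧ ∀ m : ℕ, ((m : Polynomial k) + 1) * gamP n κ γ (m + 1) =
    ∑ ij ∈ Finset.HasAntidiagonal.antidiagonal m,
      gamP n κ γ ij.1 * ((-1) ^ ij.2 * ZP (List.replicate ij.2 false ++ [true]))

/-- [one] Hypothesis `S_expc`. PROOF. `Lowers`: if `|w| < n` then `T (word w) = 0`; if `|w| = n` then `T (word w)`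
is a multiple of `word []`, with coefficient `coeff (actL φ 1) w = coeff φ w` (`der_one`), and `T 1 = 0`. -/
def S_one : Prop := ∀ {k : Type} [CommRing k] [Algebra ℚ k] (n : ℕ) (φ : QX)
  (T : Module.End ℚ QX) (Z : List Bool → k), 1 ≤ n → Lowers List.length n T → IsAdj (actL φ) T →
  (∀ w : List Bool, w.length < n → expP List.length T Z w = Polynomial.C (Z w)) ∧
  ∀ w : List Bool, w.length = n → expP List.length T Z w =
    Polynomial.C (Z w) + Polynomial.monomial 1 (coeff φ w • Z [])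

/-- [sol] Hypotheses `S_yact`, `S_shp`, `S_codx`, `S_adj`, `S_dert`, `S_expc`, `S_expm`, `S_adx`, `S_ty`,
`S_sty`, `S_gam`, `S_one`. PROOF. `S'` from `S_yact`. `T` is a derivation for
`Cyc.shuffle` (`S_dert`, `S_codx`, `S_shp`), so `expP List.length T Z` is multiplicative (`S_expm`). `S_adj` for
`S = S'`, `wt = wtY` (fibres: `toX_injective`, `List.finite_length_eq`; `S'` raises the weight by `n`: `YAct.co`,
`inY_word`, `isHom_der`) gives `T'`, a derivation for `Cyc.stuffle`; `expP wtY T' (star γ Z)` is multiplicative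
and equal to `star (gamP …) (expP … Z)` (`S_ty`, `S_sty`). `γ`: `S_gam`, the values of `expP` at `x₀^j x₁` from
`S_adx` (3) (`T 1 = 0`) and `S_expc`. Values at `[]`, `[false]`, `[true]`: `S_one`. -/
def S_sol : Prop := ∀ {k : Type} [CommRing k] [Algebra ℚ k] (γ : ℕ → k) (Z : List Bool → k) (n : ℕ)
  (ψ : QX) (T : Module.End ℚ QX), Cyc.RegDS γ Z → ψ ∈ dm0 → IsHom n ψ → 3 ≤ n → IsAdj (actL ψ) T →
  Cyc.RegDS (gamP n (kap n ψ) γ) (expP List.length T Z)

/-! ## Part D: the torsor theorem -/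

/-- [ext] No hypotheses. PROOF. The words form a basis of the free algebra, the `word u ⊗ word v` a basis of the
tensor square (`Basis.tensorProduct`), and `ccx u v` are the coordinates. -/
def S_ext : Prop := ∀ {X : Type} (t : FreeAlgebra ℚ X ⊗[ℚ] FreeAlgebra ℚ X),
  (∀ u v : List X, ccx u v t = 0) → t = 0

/-- [fri] Hypotheses `S_shp`, `S_ext`. (Friedrichs.) PROOF. By `S_ext`, `S_shp`: `Dsh φ = φ ⊗ 1 + 1 ⊗ φ`
(`coeff φ [] = 0`). Let `N` be the linear map `word w ↦ |w| word w`, `Dy` the linear map with `Dy 1 = 0`,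
`Dy (x f) = x Dy(f) - Dy(f) x + coeff f [] • x` (so `Dy (word w)` is the bracket `[x_1, [x_2, …, x_n]]`,
in `LieX`). Then (a) `mul (id ⊗ SS) (Dsh f) = coeff f [] • 1` and (b) `mul (N ⊗ SS) (Dsh f) = Dy f`, where `mul (A ⊗ B)
(a ⊗ b) = A a * B b`: for words, `Dsh (x w) = (x ⊗ 1 + 1 ⊗ x) * Dsh w`, and for `t = a ⊗ b`:
`N(x a) SS(b) + N(a) SS(x b) = x N(a) SS(b) + x a SS(b) - N(a) SS(b) x`. For `f = φ`: `n φ = Dy φ ∈ LieX`. -/
def S_fri : Prop := ∀ (n : ℕ) (φ : QX), 1 ≤ n → IsHom n φ →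
  (∀ u v : List Bool, u ≠ [] → v ≠ [] → ((Cyc.shuffle u v).map (coeff φ)).sum = 0) → φ ∈ LieX

/-- [dif] Hypotheses `S_shp`, `S_ext`, `S_fri`. PROOF. `φ = ∑_{|w| = n} L (Z w - Z' w) • word w` (a finite sum).
`u, v ≠ []`, `|u| + |v| = n`: `∑ (Z - Z')` over the shuffles is `Z u Z v - Z' u Z' v = 0`; for `|u| + |v| ≠ n` all
coefficients vanish (all shuffles have length `|u| + |v|`); so `φ ∈ LieX` (`S_fri`). `γ_i = γ'_i` for `i < n`,
`n (γ_n - γ'_n) = (-1)^(n-1) (Z - Z')(x₀^(n-1) x₁)`. So `star γ Z u = star γ' Z' u` if `|toX u| < n`, and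
`L (star γ Z u - star γ' Z' u) = starCoeff φ u` if `|toX u| = n`. Let `p` be the (finite) sum of the
`starCoeff φ u • word u` over `|toX u| = n` (`starCoeff φ u = 0` for the other `u`); `Delta p = p ⊗ 1 + 1 ⊗ p` by `S_ext`
and `S_shp` (2): for `u, v ≠ []` the sum of `starCoeff φ` over `stuffle u v` is `0` if `|toX u| + |toX v| ≠ n`, and else
`L (star Z u star Z v - star Z' u star Z' v) = 0`; `u = []` or `v = []` are clear. -/
def S_dif : Prop := ∀ {k : Type} [CommRing k] [Algebra ℚ k] (γ γ' : ℕ → k) (Z Z' : List Bool → k)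
  (n : ℕ), 3 ≤ n → Cyc.RegDS γ Z → Cyc.RegDS γ' Z' → (∀ w : List Bool, w.length < n → Z w = Z' w) →
  ∀ L : k →ₗ[ℚ] ℚ, ∃ φ ∈ dm0, IsHom n φ ∧
    ∀ w : List Bool, w.length = n → coeff φ w = L (Z w - Z' w)

/-- [dec] No hypotheses. PROOF. A basis `b` of `k` over `ℚ` (`Module.Free.chooseBasis`); the finitely many `δ w`,
`|w| = n`, have coordinates in a finite set `J` of indices; `L j` is the coordinate, `e j = b j`
(`Finset.equivFin` or `Finset.sum_coe_sort`). -/
def S_dec : Prop := ∀ {k : Type} [CommRing k] [Algebra ℚ k] (n : ℕ) (δ : List Bool → k),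
  ∃ (r : ℕ) (e : Fin r → k) (L : Fin r → (k →ₗ[ℚ] ℚ)), ∀ w : List Bool, w.length = n →
    δ w = ∑ j, L j (δ w) • e j

/-- [map] No hypotheses. PROOF. Each field; `map_list_sum`, `map_sum`. -/
def S_map : Prop := ∀ {k k' : Type} [CommRing k] [CommRing k'] (f : k →+* k') (γ : ℕ → k)
  (Z : List Bool → k), Cyc.RegDS γ Z → Cyc.RegDS (fun i => f (γ i)) (fun w => f (Z w))

/-- `P` is invariant under the flows of the elements of `dm₀`. -/
def Invt {k : Type} [CommRing k] [Algebra ℚ k] (P : (List Bool → k) → Prop) : Prop :=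
  ∀ (γ : ℕ → k) (Z : List Bool → k) (φ : QX) (n : ℕ) (T : Module.End ℚ QX) (c : k),
    Cyc.RegDS γ Z → φ ∈ dm0 → IsHom n φ → 3 ≤ n → IsAdj (actL φ) T → P Z →
    P (fun w => (expP List.length T Z w).eval c)

/-- [step] Hypotheses `S_adj`, `S_adx`, `S_one`, `S_sol`, `S_dif`, `S_dec`, `S_map`. PROOF. `S_dec` for
`δ = Z - Z'`; `φ_j` from `S_dif` with `L = L j`; `T_j` from `S_adj` (`S = actL φ_j`, `wt = length`,
`List.finite_length_eq`; `S` raises the length by `n`: as in `S_adx` (1), `isHom_der`). Apply for `j = 0, …, r-1` the flows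
`Z' ↦ (w ↦ (expP length T_j Z' w).eval (e j))`: they preserve `RegDS` (`S_sol`, `S_map` with `Polynomial.evalRingHom (e j)`),
`P`, the values on the words of length `< n`, and add `coeff φ_j w • e j` to the value at the words of length `n`
(`S_one`, `Z' [] = 1`). (Induction over `j ≤ r`.) -/
def S_step : Prop := ∀ {k : Type} [CommRing k] [Algebra ℚ k] (P : (List Bool → k) → Prop), Invt P →
  ∀ (γ γ' : ℕ → k) (Z Z' : List Bool → k) (n : ℕ), 3 ≤ n → Cyc.RegDS γ Z → Cyc.RegDS γ' Z' →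
  (∀ w : List Bool, w.length < n → Z w = Z' w) → P Z' →
  ∃ (γ'' : ℕ → k) (Z'' : List Bool → k), Cyc.RegDS γ'' Z'' ∧ P Z'' ∧
    ∀ w : List Bool, w.length < n + 1 → Z w = Z'' w

/-- [tor] Hypothesis `S_step`. RACINET'S TORSOR THEOREM. PROOF. `Z` and `Z'` agree on the words of length `< 3`:
`Z [] = 1`, letters `0`, `2 Z(aa) = Z(a)^2 = 0`, `Z(x₀x₁) + Z(x₁x₀) = Z(x₀) Z(x₁) = 0`. Then induction on `N` with
`S_step`. -/
def S_tor : Prop := ∀ {k : Type} [CommRing k] [Algebra ℚ k] (P : (List Bool → k) → Prop), Invt P →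
  ∀ (γ γ' : ℕ → k) (Z Z' : List Bool → k), Cyc.RegDS γ Z → Cyc.RegDS γ' Z' →
  Z [false, true] = Z' [false, true] → P Z' → ∀ N : ℕ,
  ∃ (γ'' : ℕ → k) (Z'' : List Bool → k), Cyc.RegDS γ'' Z'' ∧ P Z'' ∧
    ∀ w : List Bool, w.length ≤ N → Z w = Z'' w

end Pool.Agent.MP_a57f33_nt.RT
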